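import Pool.Agent.Helper22.D3.Main
import Pool.Agent.Helper53.OW.Fin

/-!
# Project EL (MP_fb29e9_nt): exponent 61/98 for ellipses (and all ovals with nondegenerate sixth derivatives). Definitions

`NdL c₀ φ`: the lower bound for the frozen sixth derivative of `x φ(y/x)` with one vertical direction (for the disc: Helper53.OW.lowD).
`OctAllN θ`: as `OctAll θ` (Helper22.D3.Main), for the phases with `NdL c₀ φ`.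
-/

set_option autoImplicit false

namespace Pool.Agent.Helper36.EL

open Pool.Agent.Helper22.OV (Cond osum)
open Pool.Agent.Helper53.OW (C6m Tw Pt)

/-- the sixth derivative with one vertical direction is nondegenerate -/
def NdL (c₀ : ℝ) (φ : ℝ → ℝ) : Prop := ∀ (K : ℝ) (q V w₁ w₂ w₃ w₄ : ℝ × ℝ), Pt K q → V.1 = 0 →
  c₀ * (‖w₁‖ * ‖w₂‖ * ‖w₃‖ * ‖w₄‖ * ‖V‖ / K ^ 5) ≤
    max |Tw φ [(1, 0), w₁, w₂, w₃, w₄, V] q| |Tw φ [(0, 1), w₁, w₂, w₃, w₄, V] q|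

/-- the octant bound with exponent `θ` for the phases with `NdL` -/
def OctAllN (θ : ℝ) : Prop := ∀ (e c₁ B c₀ : ℝ) (ω : ℝ → ℝ), 0 < e → e ≤ 1 / 1000 → 0 < c₁ → 1 ≤ B → 0 < c₀ →
    (∀ ε, 0 < ε → 0 < ω ε) → ∃ C X₁ : ℝ, 0 < C ∧ 1 ≤ X₁ ∧
    ∀ (φ : ℝ → ℝ) (W : ℝ → ℂ), Cond c₁ B φ W → C6m c₁ B ω φ → NdL c₀ φ → ∀ (X R : ℝ) (K : ℕ), X₁ ≤ X → X ≤ R → R ≤ 2 * X → 1 ≤ K →
      (K : ℝ) ≤ X ^ (1 - θ + e) → ∀ i : ℕ, (i = 1 ∨ i = 2) → ∀ c : ℝ × ℝ,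
        ‖osum K i W φ R c‖ ≤ C * (X ^ (θ - 1 / 2 + e) * (K : ℝ) ^ (3 / 2 : ℝ))

end Pool.Agent.Helper36.EL
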