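import Pool.Agent.Helper36.EL.Low
import Pool.Agent.Helper36.EL.Defs
import Pool.Agent.Helper92.TD.Piece

/-!
# Project EL (MP_fb29e9_nt): the phases of ellipses

`phE A B x = |A + x B|`. `Nd_ell`: they satisfy `NdL`.
-/

set_option autoImplicit false

namespace Pool.Agent.Helper36.EL

open Pool.Agent.Helper53.OW (Tw Tw_deriv Tw_perm Pt Ps Ec cf)
open Pool.Agent.Helper92.TD (Dv T pr pr_cons pr_nil Dv_re Dv_deriv pr_nonneg)

/-- the phase of an ellipse -/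
noncomputable def phE (A B : ℂ) (x : ℝ) : ℝ := ‖A + x * B‖

/-- the linear map -/
noncomputable def tA (A B : ℂ) (q : ℝ × ℝ) : ℂ := q.1 * A + q.2 * B

variable {A B : ℂ}

theorem tA_ne (h : A.re * B.im - A.im * B.re ≠ 0) {q : ℝ × ℝ} (hq : q ≠ 0) : tA A B q ≠ 0 := by
  intro h0
  have h1 : q.1 * A.re + q.2 * B.re = 0 := by simpa [tA] using congrArg Complex.re h0
  have h2 : q.1 * A.im + q.2 * B.im = 0 := by simpa [tA] using congrArg Complex.im h0
  have h3 : q.1 * (A.re * B.im - A.im * B.re) = 0 := by linear_combination B.im * h1 - B.re * h2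
  have h4 : q.2 * (A.re * B.im - A.im * B.re) = 0 := by linear_combination A.re * h2 - A.im * h1
  refine hq (Prod.ext ?_ ?_)
  · exact (mul_eq_zero.1 h3).resolve_right h
  · exact (mul_eq_zero.1 h4).resolve_right h

theorem phE_contDiff (h : A.re * B.im - A.im * B.re ≠ 0) (n : ℕ) : ContDiff ℝ n (phE A B) := by
  have e : phE A B = fun x => Real.sqrt ((A.re + x * B.re) ^ 2 + (A.im + x * B.im) ^ 2) := by
    funext x
    unfold phE
    rw [Complex.norm_eq_sqrt_sq_add_sq]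
    simp
  rw [e]
  refine ContDiff.sqrt (by fun_prop) (fun x h0 => ?_)
  have h1 : (A.re + x * B.re) ^ 2 = 0 ∧ (A.im + x * B.im) ^ 2 = 0 := by
    constructor <;> nlinarith [sq_nonneg (A.re + x * B.re), sq_nonneg (A.im + x * B.im)]
  have h2 : A.re + x * B.re = 0 := by simpa using h1.1
  have h3 : A.im + x * B.im = 0 := by simpa using h1.2
  exact h (by linear_combination B.im * h2 - B.re * h3)

lemma tA_line (q w : ℝ × ℝ) (t : ℝ) : tA A B (q + t • w) = tA A B q + t * tA A B w := by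
  unfold tA
  simp only [Prod.fst_add, Prod.snd_add, Prod.smul_fst, Prod.smul_snd, smul_eq_mul]
  push_cast
  ring

lemma Tw_Dv_ell (h0 : A.re * B.im - A.im * B.re ≠ 0) {ws : List (ℝ × ℝ)} (h : ws.length ≤ 6) : ∀ q : ℝ × ℝ, 0 < q.1 →
    ((Tw (phE A B) ws q : ℝ) : ℂ) = Dv 0 0 (ws.map (tA A B)).reverse (tA A B q) := by
  induction ws with
  | nil =>
    intro q hq
    have h1 : ‖tA A B q‖ = q.1 * phE A B (q.2 / q.1) := by
      unfold tA phE
      have e : (q.1 : ℂ) * A + q.2 * B = (q.1 : ℂ) * (A + ((q.2 / q.1 : ℝ) : ℂ) * B) := by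
        have hq0 : (q.1 : ℂ) ≠ 0 := by exact_mod_cast hq.ne'
        push_cast
        field_simp
      rw [e, norm_mul, Complex.norm_real, Real.norm_of_nonneg hq.le]
    have h3 : Tw (phE A B) [] q = q.1 * phE A B (q.2 / q.1) := by
      simp [Tw, Ps, Ec, cf]
    have h4 : Dv 0 0 [] (tA A B q) = ((‖tA A B q‖ : ℝ) : ℂ) := by
      simp [Dv, T]
    rw [List.map_nil, List.reverse_nil, h4, h1, h3]
  | cons w ws ih =>
    intro q hq
    rw [List.length_cons] at h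
    have hne : tA A B q ≠ 0 := tA_ne h0 (fun e => by
      rw [e] at hq
      simp at hq)
    have h1 := (Tw_deriv (phE_contDiff h0 6) (ws := ws) (by omega) hq w).ofReal_comp
    have h2 := Dv_deriv (ws.map (tA A B)).reverse 0 0 (p := tA A B q) (w := tA A B w) hne
    have h3 : (fun t : ℝ => ((Tw (phE A B) ws (q + t • w) : ℝ) : ℂ)) =ᶠ[nhds 0]
        fun t : ℝ => Dv 0 0 (ws.map (tA A B)).reverse (tA A B q + t * tA A B w) := by
      have hc : ContinuousAt (fun t : ℝ => q.1 + t * w.1) 0 := by fun_prop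
      have hev := hc.eventually (lt_mem_nhds (show (0 : ℝ) < q.1 + 0 * w.1 by linarith))
      filter_upwards [hev] with t ht
      have h4 := ih (by omega) (q + t • w) (by
        simp only [Prod.fst_add, Prod.smul_fst, smul_eq_mul]
        exact ht)
      rw [h4, tA_line]
    have h5 := h2.congr_of_eventuallyEq h3
    have h6 := h1.unique h5
    rw [h6, List.map_cons, List.reverse_cons]

lemma Tw_Dv_ell' (h0 : A.re * B.im - A.im * B.re ≠ 0) {ws : List (ℝ × ℝ)} (h : ws.length ≤ 6) {q : ℝ × ℝ} (hq : 0 < q.1) :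
    ((Tw (phE A B) ws q : ℝ) : ℂ) = Dv 0 0 (ws.map (tA A B)) (tA A B q) := by
  have h1 := Tw_Dv_ell h0 (ws := ws.reverse) (by rw [List.length_reverse]; exact h) q hq
  rw [Tw_perm (List.reverse_perm ws), List.map_reverse, List.reverse_reverse] at h1
  exact h1

lemma cross_le (z w : ℂ) : |z.re * w.im - z.im * w.re| ≤ ‖z‖ * ‖w‖ := by
  have h1 : (z.re * w.im - z.im * w.re) ^ 2 ≤ (‖z‖ * ‖w‖) ^ 2 := by
    rw [mul_pow, ← Complex.normSq_eq_norm_sq, ← Complex.normSq_eq_norm_sq, Complex.normSq_apply, Complex.normSq_apply]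
    nlinarith [sq_nonneg (z.re * w.re + z.im * w.im)]
  exact abs_le_of_sq_le_sq h1 (by positivity)

/-- lower bound for the linear map -/
lemma tA_lo (w : ℝ × ℝ) : |A.re * B.im - A.im * B.re| * ‖w‖ ≤ (‖A‖ + ‖B‖) * ‖tA A B w‖ := by
  obtain ⟨Z, hZ⟩ : ∃ Z, Z = tA A B w := ⟨_, rfl⟩
  have z1 : Z.re = w.1 * A.re + w.2 * B.re := by rw [hZ]; simp [tA]
  have z2 : Z.im = w.1 * A.im + w.2 * B.im := by rw [hZ]; simp [tA]
  have e1 : w.1 * (A.re * B.im - A.im * B.re) = Z.re * B.im - Z.im * B.re := by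
    rw [z1, z2]
    ring
  have e2 : w.2 * (A.re * B.im - A.im * B.re) = A.re * Z.im - A.im * Z.re := by
    rw [z1, z2]
    ring
  have h1 := cross_le Z B
  have h2 := cross_le A Z
  rw [← e1, abs_mul] at h1
  rw [← e2, abs_mul] at h2
  rw [← hZ, Prod.norm_def, Real.norm_eq_abs, Real.norm_eq_abs]
  have hA := norm_nonneg A
  have hB := norm_nonneg B
  have hZn := norm_nonneg Z
  have hD := abs_nonneg (A.re * B.im - A.im * B.re)
  rcases max_cases |w.1| |w.2| with ⟨e, _⟩ | ⟨e, _⟩ <;> rw [e] <;> nlinarith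

/-- **the lower bound** -/
theorem Nd_ell (h0 : A.re * B.im - A.im * B.re ≠ 0) : ∃ c₀ : ℝ, 0 < c₀ ∧ NdL c₀ (phE A B) := by
  obtain ⟨D, hD⟩ : ∃ D : ℝ, D = |A.re * B.im - A.im * B.re| := ⟨_, rfl⟩
  have hD0 : 0 < D := by rw [hD]; exact abs_pos.2 h0
  obtain ⟨N, hN⟩ : ∃ N : ℝ, N = ‖A‖ + ‖B‖ := ⟨_, rfl⟩
  have hAn := norm_nonneg A
  have hBn := norm_nonneg B
  have hDN : D ≤ ‖A‖ * ‖B‖ := by rw [hD]; exact cross_le A B
  have hBp : 0 < ‖B‖ := by
    rcases hBn.eq_or_lt with h | h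
    · rw [← h] at hDN
      linarith
    · exact h
  have hN0 : 0 < N := by rw [hN]; linarith
  obtain ⟨s, hs⟩ : ∃ s : ℝ, s = (D / (‖B‖ * N)) ^ 2 := ⟨_, rfl⟩
  have hs0 : 0 < s := by rw [hs]; positivity
  obtain ⟨L, hL⟩ : ∃ L : ℝ, L = 105 / 16 * (√(16 + 9 * s) - 4) := ⟨_, rfl⟩
  have hL0 : 0 < L := by
    rw [hL]
    have h4 : (4 : ℝ) < √(16 + 9 * s) := by
      rw [Real.lt_sqrt (by norm_num)]
      linarith
    have : 0 < √(16 + 9 * s) - 4 := by linarith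
    positivity
  refine ⟨D / (2 * N) * (L * ((D / N) ^ 5 * (1 / (2 * N)) ^ 5)), by positivity, ?_⟩
  intro K q V w₁ w₂ w₃ w₄ hpt hV
  have hK := hpt.kp
  have hq : 0 < q.1 := lt_of_lt_of_le hK hpt.x1
  have hqne : q ≠ 0 := fun e => by
    rw [e] at hq
    simp at hq
  have hQ := tA_ne h0 hqne
  obtain ⟨X, hX⟩ : ∃ X : ℂ, X = Dv 1 0 [tA A B w₁, tA A B w₂, tA A B w₃, tA A B w₄, tA A B V] (tA A B q) := ⟨_, rfl⟩
  have key : ∀ z : ℝ × ℝ, Tw (phE A B) [z, w₁, w₂, w₃, w₄, V] q = (tA A B z * X).re := by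
    intro z
    have h1 := Tw_Dv_ell' h0 (ws := [z, w₁, w₂, w₃, w₄, V]) (by simp) hq
    simp only [List.map_cons, List.map_nil] at h1
    rw [Dv_re, ← hX] at h1
    exact_mod_cast h1
  have e1 : (tA A B (1, 0) * X).re = A.re * X.re - A.im * X.im := by simp [tA]
  have e2 : (tA A B (0, 1) * X).re = B.re * X.re - B.im * X.im := by simp [tA]
  rw [key, key, e1, e2]
  obtain ⟨M, hM⟩ : ∃ M : ℝ, M = max |A.re * X.re - A.im * X.im| |B.re * X.re - B.im * X.im| := ⟨_, rfl⟩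
  rw [← hM]
  have m1 : |A.re * X.re - A.im * X.im| ≤ M := by rw [hM]; exact le_max_left _ _
  have m2 : |B.re * X.re - B.im * X.im| ≤ M := by rw [hM]; exact le_max_right _ _
  have hM0 : 0 ≤ M := (abs_nonneg _).trans m1
  -- the upper bound for `X`
  have hXM : D * ‖X‖ ≤ 2 * N * M := by
    have f1 : X.re * (A.re * B.im - A.im * B.re) = B.im * (A.re * X.re - A.im * X.im) - A.im * (B.re * X.re - B.im * X.im) := by ring
    have f2 : X.im * (A.re * B.im - A.im * B.re) = B.re * (A.re * X.re - A.im * X.im) - A.re * (B.re * X.re - B.im * X.im) := by ring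
    have g : ∀ x y u v : ℝ, |x| ≤ ‖B‖ → |y| ≤ ‖A‖ → |u| ≤ M → |v| ≤ M → |x * u - y * v| ≤ N * M := by
      intro x y u v h1 h2 h3 h4
      refine (abs_sub _ _).trans ?_
      rw [abs_mul, abs_mul, hN]
      have a1 := mul_le_mul h1 h3 (abs_nonneg _) hBn
      have a2 := mul_le_mul h2 h4 (abs_nonneg _) hAn
      linarith
    have g1 := g B.im A.im _ _ (Complex.abs_im_le_norm B) (Complex.abs_im_le_norm A) m1 m2
    have g2 := g B.re A.re _ _ (Complex.abs_re_le_norm B) (Complex.abs_re_le_norm A) m1 m2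
    rw [← f1, abs_mul, ← hD] at g1
    rw [← f2, abs_mul, ← hD] at g2
    have h9 := mul_le_mul_of_nonneg_left (Complex.norm_le_abs_re_add_abs_im X) hD0.le
    linarith
  -- transversality
  have hV1 : tA A B V = (V.2 : ℂ) * B := by
    unfold tA
    rw [hV]
    simp
  have hvn : ‖tA A B V‖ = |V.2| * ‖B‖ := by
    rw [hV1, norm_mul, Complex.norm_real, Real.norm_eq_abs]
  have hqn : ‖tA A B q‖ ≤ q.1 * N := by
    unfold tA
    refine (norm_add_le _ _).trans ?_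
    rw [norm_mul, norm_mul, Complex.norm_real, Complex.norm_real, Real.norm_eq_abs, Real.norm_eq_abs, abs_of_pos hq,
      abs_of_nonneg hpt.y1, hN, mul_add]
    have := mul_le_mul_of_nonneg_right hpt.y2 hBn
    linarith
  have htr : s * (‖tA A B V‖ * ‖tA A B q‖) ^ 2 ≤ ((tA A B V).im * (tA A B q).re - (tA A B V).re * (tA A B q).im) ^ 2 := by
    have c1 : (tA A B V).im * (tA A B q).re - (tA A B V).re * (tA A B q).im = V.2 * q.1 * (A.re * B.im - A.im * B.re) := by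
      rw [hV1]
      simp [tA]
      ring
    rw [c1, hs, hvn, ← mul_pow]
    have c2 : (D / (‖B‖ * N) * (|V.2| * ‖B‖ * ‖tA A B q‖)) ^ 2 ≤ (D / (‖B‖ * N) * (|V.2| * ‖B‖ * (q.1 * N))) ^ 2 := by
      refine pow_le_pow_left₀ (by positivity) ?_ 2
      gcongr
    refine c2.trans (le_of_eq ?_)
    have c3 : D / (‖B‖ * N) * (|V.2| * ‖B‖ * (q.1 * N)) = |V.2| * q.1 * D := by
      field_simp
    rw [c3, mul_pow, mul_pow, sq_abs, hD, sq_abs]
    ring
  have hlow := low5s (w₁ := tA A B w₁) (w₂ := tA A B w₂) (w₃ := tA A B w₃) (w₄ := tA A B w₄) (v := tA A B V) hQ hs0.le htr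
  rw [← hX, ← hL] at hlow
  -- the norms
  have h4 : 0 < ‖tA A B q‖ := norm_pos_iff.2 hQ
  have h3 : ‖tA A B q‖ ≤ 2 * N * K := by
    have := mul_le_mul_of_nonneg_right hpt.x2 hN0.le
    linarith
  have h5 : ‖tA A B q‖ * (‖tA A B q‖⁻¹) ^ 6 = (‖tA A B q‖⁻¹) ^ 5 := by
    rw [pow_succ (‖tA A B q‖⁻¹) 5]
    field_simp
  have h6 : ((2 * N * K)⁻¹) ^ 5 ≤ (‖tA A B q‖⁻¹) ^ 5 :=
    pow_le_pow_left₀ (by positivity) ((inv_le_inv₀ (by positivity) h4).2 h3) 5
  have hlo : ∀ w : ℝ × ℝ, D / N * ‖w‖ ≤ ‖tA A B w‖ := by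
    intro w
    have := tA_lo (A := A) (B := B) w
    rw [← hD, ← hN] at this
    rw [div_mul_eq_mul_div, div_le_iff₀ hN0]
    linarith
  have h7 : (D / N) ^ 5 * (‖w₁‖ * ‖w₂‖ * ‖w₃‖ * ‖w₄‖ * ‖V‖) ≤ pr [tA A B w₁, tA A B w₂, tA A B w₃, tA A B w₄, tA A B V] := by
    simp only [pr_cons, pr_nil]
    have a1 := hlo w₁
    have a2 := hlo w₂
    have a3 := hlo w₃
    have a4 := hlo w₄
    have a5 := hlo V
    calc (D / N) ^ 5 * (‖w₁‖ * ‖w₂‖ * ‖w₃‖ * ‖w₄‖ * ‖V‖) =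
          (D / N * ‖w₁‖) * ((D / N * ‖w₂‖) * ((D / N * ‖w₃‖) * ((D / N * ‖w₄‖) * (D / N * ‖V‖)))) := by ring
      _ ≤ ‖tA A B w₁‖ * (‖tA A B w₂‖ * (‖tA A B w₃‖ * (‖tA A B w₄‖ * ‖tA A B V‖))) := by gcongr
      _ = _ := by ring
  have h8 : L * ((D / N) ^ 5 * (‖w₁‖ * ‖w₂‖ * ‖w₃‖ * ‖w₄‖ * ‖V‖) * ((2 * N * K)⁻¹) ^ 5) ≤ ‖X‖ := by
    rw [h5] at hlow
    refine le_trans ?_ hlow
    refine mul_le_mul_of_nonneg_left ?_ hL0.le
    exact mul_le_mul h7 h6 (by positivity) (pr_nonneg _)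
  have h9 : D / (2 * N) * ‖X‖ ≤ M := by
    rw [div_mul_eq_mul_div, div_le_iff₀ (by positivity)]
    linarith
  refine le_trans ?_ h9
  calc D / (2 * N) * (L * ((D / N) ^ 5 * (1 / (2 * N)) ^ 5)) * (‖w₁‖ * ‖w₂‖ * ‖w₃‖ * ‖w₄‖ * ‖V‖ / K ^ 5) =
        D / (2 * N) * (L * ((D / N) ^ 5 * (‖w₁‖ * ‖w₂‖ * ‖w₃‖ * ‖w₄‖ * ‖V‖) * ((2 * N * K)⁻¹) ^ 5)) := by
          field_simp
    _ ≤ _ := mul_le_mul_of_nonneg_left h8 (by positivity)

end Pool.Agent.Helper36.EL
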