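import Pool.Agent.Helper36.EL.Ell
import Pool.Agent.Helper92.GC.D1

/-!
# Project EL (MP_fb29e9_nt): ellipses

`ellH P Q t = |P cos t + Q sin t|` is the support function of an ellipse; `mem_ell`: the ellipse is `{p | |α p.1 + β p.2| ≤ R}`; `area_ell`: its area.
-/

set_option autoImplicit false

open MeasureTheory Real Set

namespace Pool.Agent.Helper36.EL

open Pool.Agent.Helper22.AE (IsSupp area dom)
open Pool.Agent.Helper22.OV (gam oph oan sg)

/-- the support function of an ellipse -/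
noncomputable def ellH (P Q : ℂ) (t : ℝ) : ℝ := ‖tA P Q (cos t, sin t)‖

section
variable {P Q : ℂ}

theorem cs_ne (t : ℝ) : ((cos t, sin t) : ℝ × ℝ) ≠ 0 := by
  intro h
  have h1 : cos t = 0 := congrArg Prod.fst h
  have h2 : sin t = 0 := congrArg Prod.snd h
  have := sin_sq_add_cos_sq t
  rw [h1, h2] at this
  norm_num at this

theorem ellH_pos (h : P.re * Q.im - P.im * Q.re ≠ 0) (t : ℝ) : 0 < ellH P Q t := norm_pos_iff.2 (tA_ne h (cs_ne t))

theorem tA_re (q : ℝ × ℝ) : (tA P Q q).re = q.1 * P.re + q.2 * Q.re := by simp [tA]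

theorem tA_im (q : ℝ × ℝ) : (tA P Q q).im = q.1 * P.im + q.2 * Q.im := by simp [tA]

theorem ellH_eq (t : ℝ) : ellH P Q t = √((cos t * P.re + sin t * Q.re) ^ 2 + (cos t * P.im + sin t * Q.im) ^ 2) := by
  unfold ellH
  rw [Complex.norm_eq_sqrt_sq_add_sq, tA_re, tA_im]

theorem ellH_sq (t : ℝ) : ellH P Q t ^ 2 = (cos t * P.re + sin t * Q.re) ^ 2 + (cos t * P.im + sin t * Q.im) ^ 2 := by
  rw [ellH_eq, sq_sqrt (by positivity)]

theorem ellH_contDiff (h : P.re * Q.im - P.im * Q.re ≠ 0) (n : ℕ) : ContDiff ℝ n (ellH P Q) := by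
  have e : ellH P Q = fun t => √((cos t * P.re + sin t * Q.re) ^ 2 + (cos t * P.im + sin t * Q.im) ^ 2) := funext ellH_eq
  rw [e]
  refine ContDiff.sqrt (by fun_prop) (fun t h0 => ?_)
  have h1 := ellH_pos h t
  have h2 := ellH_sq (P := P) (Q := Q) t
  rw [h0] at h2
  have h3 : ellH P Q t = 0 := by simpa using h2
  exact h1.ne' h3

theorem ellH_per : Function.Periodic (ellH P Q) (2 * π) := by
  intro t
  unfold ellH
  rw [cos_add_two_pi, sin_add_two_pi]

/-- the derivative -/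
theorem ellH_deriv (h : P.re * Q.im - P.im * Q.re ≠ 0) (t : ℝ) : HasDerivAt (ellH P Q)
    (((cos t * P.re + sin t * Q.re) * (-sin t * P.re + cos t * Q.re) + (cos t * P.im + sin t * Q.im) * (-sin t * P.im + cos t * Q.im)) /
      ellH P Q t) t := by
  have hp := ellH_pos h t
  have e : ellH P Q = fun t => √((cos t * P.re + sin t * Q.re) ^ 2 + (cos t * P.im + sin t * Q.im) ^ 2) := funext ellH_eq
  have du : HasDerivAt (fun t => cos t * P.re + sin t * Q.re) (-sin t * P.re + cos t * Q.re) t :=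
    ((hasDerivAt_cos t).mul_const _).add ((hasDerivAt_sin t).mul_const _)
  have dv : HasDerivAt (fun t => cos t * P.im + sin t * Q.im) (-sin t * P.im + cos t * Q.im) t :=
    ((hasDerivAt_cos t).mul_const _).add ((hasDerivAt_sin t).mul_const _)
  have hn : (cos t * P.re + sin t * Q.re) ^ 2 + (cos t * P.im + sin t * Q.im) ^ 2 ≠ 0 := by
    rw [← ellH_sq]
    positivity
  have h1 := ((du.fun_pow 2).fun_add (dv.fun_pow 2)).sqrt hn
  rw [← e] at h1
  refine h1.congr_deriv ?_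
  rw [← ellH_eq]
  push_cast
  field_simp
  try ring

theorem ellH_rho (h : P.re * Q.im - P.im * Q.re ≠ 0) (t : ℝ) : 0 < ellH P Q t + deriv (deriv (ellH P Q)) t := by
  have hp := ellH_pos h t
  have e : deriv (ellH P Q) = fun t => ((cos t * P.re + sin t * Q.re) * (-sin t * P.re + cos t * Q.re) +
      (cos t * P.im + sin t * Q.im) * (-sin t * P.im + cos t * Q.im)) / ellH P Q t := funext fun t => (ellH_deriv h t).deriv
  have du : HasDerivAt (fun t => cos t * P.re + sin t * Q.re) (-sin t * P.re + cos t * Q.re) t :=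
    ((hasDerivAt_cos t).mul_const _).add ((hasDerivAt_sin t).mul_const _)
  have dv : HasDerivAt (fun t => cos t * P.im + sin t * Q.im) (-sin t * P.im + cos t * Q.im) t :=
    ((hasDerivAt_cos t).mul_const _).add ((hasDerivAt_sin t).mul_const _)
  have du1 : HasDerivAt (fun t => -sin t * P.re + cos t * Q.re) (-cos t * P.re + -sin t * Q.re) t :=
    (((hasDerivAt_sin t).neg).mul_const _).add ((hasDerivAt_cos t).mul_const _)
  have dv1 : HasDerivAt (fun t => -sin t * P.im + cos t * Q.im) (-cos t * P.im + -sin t * Q.im) t :=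
    (((hasDerivAt_sin t).neg).mul_const _).add ((hasDerivAt_cos t).mul_const _)
  have h2 := (((du.fun_mul du1).fun_add (dv.fun_mul dv1)).fun_div (ellH_deriv h t) hp.ne').deriv
  rw [← e] at h2
  rw [h2]
  have hs := ellH_sq (P := P) (Q := Q) t
  obtain ⟨u, hu⟩ : ∃ u, u = cos t * P.re + sin t * Q.re := ⟨_, rfl⟩
  obtain ⟨v, hv⟩ : ∃ v, v = cos t * P.im + sin t * Q.im := ⟨_, rfl⟩
  obtain ⟨u1, hu1⟩ : ∃ u1, u1 = -sin t * P.re + cos t * Q.re := ⟨_, rfl⟩
  obtain ⟨v1, hv1⟩ : ∃ v1, v1 = -sin t * P.im + cos t * Q.im := ⟨_, rfl⟩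
  obtain ⟨r, hr⟩ : ∃ r, r = ellH P Q t := ⟨_, rfl⟩
  have e1 : -cos t * P.re + -sin t * Q.re = -u := by rw [hu]; ring
  have e2 : -cos t * P.im + -sin t * Q.im = -v := by rw [hv]; ring
  rw [e1, e2, ← hu, ← hv, ← hu1, ← hv1, ← hr]
  rw [← hu, ← hv, ← hr] at hs
  rw [← hr] at hp
  have hdet : u * v1 - v * u1 = P.re * Q.im - P.im * Q.re := by
    rw [hu, hv, hu1, hv1]
    linear_combination (P.re * Q.im - P.im * Q.re) * (sin_sq_add_cos_sq t)
  have key : r + ((u1 * u1 + u * -u + (v1 * v1 + v * -v)) * r - (u * u1 + v * v1) * ((u * u1 + v * v1) / r)) / r ^ 2 =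
      (u * v1 - v * u1) ^ 2 / r ^ 3 := by
    have hrn := hp.ne'
    field_simp
    linear_combination (r ^ 2 + (u1 ^ 2 + v1 ^ 2)) * hs
  rw [key, hdet]
  positivity

theorem ellH_supp (h : P.re * Q.im - P.im * Q.re ≠ 0) : IsSupp (ellH P Q) where
  smooth := by exact_mod_cast ellH_contDiff h 2
  per := ellH_per
  pos := ellH_pos h
  rho_pos := ellH_rho h

/-- the phases of the ellipse -/
theorem oph_ell (j : ℕ) (s : Bool) : oph (gam (ellH P Q) 0 0) j s =
    phE (tA P Q (cos ((j : ℝ) * (π / 2)), sin ((j : ℝ) * (π / 2))))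
      (sg s * tA P Q (-sin ((j : ℝ) * (π / 2)), cos ((j : ℝ) * (π / 2)))) := by
  funext x
  have hg : ∀ t, gam (ellH P Q) 0 0 t = ellH P Q t := by
    intro t
    unfold gam Pool.Agent.Helper22.AC.ga
    simp
  have e : oan j s x = (j : ℝ) * (π / 2) + sg s * arctan x := by
    unfold oan sg
    cases s <;> simp
  obtain ⟨θ, hθ⟩ : ∃ θ : ℝ, θ = (j : ℝ) * (π / 2) := ⟨_, rfl⟩
  have hw : 0 < √(1 + x ^ 2) := sqrt_pos.2 (by positivity)
  have c1 : √(1 + x ^ 2) * cos (sg s * arctan x) = 1 := by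
    have : cos (sg s * arctan x) = cos (arctan x) := by
      unfold sg
      cases s
      · simp
      · simp
    rw [this, cos_arctan]
    field_simp
  have s1 : √(1 + x ^ 2) * sin (sg s * arctan x) = sg s * x := by
    have : sin (sg s * arctan x) = sg s * sin (arctan x) := by
      unfold sg
      cases s
      · simp
      · simp
    rw [this, sin_arctan]
    field_simp
  unfold oph phE
  rw [hg, e, ← hθ]
  unfold ellH
  rw [← Real.norm_of_nonneg hw.le, ← Complex.norm_real, ← norm_mul]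
  congr 1
  unfold tA
  have a1 : √(1 + x ^ 2) * cos (θ + sg s * arctan x) = cos θ - sg s * x * sin θ := by
    rw [cos_add]
    linear_combination cos θ * c1 - sin θ * s1
  have a2 : √(1 + x ^ 2) * sin (θ + sg s * arctan x) = sin θ + sg s * x * cos θ := by
    rw [sin_add]
    linear_combination sin θ * c1 + cos θ * s1
  have b1 := congrArg (Complex.ofReal) a1
  have b2 := congrArg (Complex.ofReal) a2
  simp only [Complex.ofReal_mul, Complex.ofReal_sub, Complex.ofReal_add, Complex.ofReal_neg] at b1 b2 ⊢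
  linear_combination P * b1 + Q * b2

theorem Nd_mono {c c' : ℝ} {φ : ℝ → ℝ} (h : NdL c φ) (hc : c' ≤ c) : NdL c' φ := by
  intro K q V w₁ w₂ w₃ w₄ hq hV
  refine le_trans ?_ (h K q V w₁ w₂ w₃ w₄ hq hV)
  have hK := hq.kp
  exact mul_le_mul_of_nonneg_right hc (by positivity)

theorem Nd_ell_all (h : P.re * Q.im - P.im * Q.re ≠ 0) : ∃ c₀ : ℝ, 0 < c₀ ∧
    ∀ (j : ℕ) (s : Bool), j < 4 → NdL c₀ (oph (gam (ellH P Q) 0 0) j s) := by
  have h1 : ∀ (j : ℕ) (s : Bool), ∃ c : ℝ, 0 < c ∧ NdL c (oph (gam (ellH P Q) 0 0) j s) := by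
    intro j s
    rw [oph_ell]
    refine Nd_ell ?_
    obtain ⟨θ, hθ⟩ : ∃ θ : ℝ, θ = (j : ℝ) * (π / 2) := ⟨_, rfl⟩
    rw [← hθ]
    have hs0 : sg s ≠ 0 := by
      unfold sg
      cases s <;> simp
    have e1 : (((sg s : ℝ) : ℂ) * tA P Q (-sin θ, cos θ)).re = sg s * (tA P Q (-sin θ, cos θ)).re := Complex.re_ofReal_mul _ _
    have e2 : (((sg s : ℝ) : ℂ) * tA P Q (-sin θ, cos θ)).im = sg s * (tA P Q (-sin θ, cos θ)).im := Complex.im_ofReal_mul _ _
    rw [e1, e2, tA_re, tA_im, tA_re, tA_im]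
    have e3 : (cos θ * P.re + sin θ * Q.re) * (sg s * (-sin θ * P.im + cos θ * Q.im)) -
        (cos θ * P.im + sin θ * Q.im) * (sg s * (-sin θ * P.re + cos θ * Q.re)) = sg s * (P.re * Q.im - P.im * Q.re) := by
      linear_combination (sg s * (P.re * Q.im - P.im * Q.re)) * (sin_sq_add_cos_sq θ)
    rw [e3]
    exact mul_ne_zero hs0 h
  choose c hc hN using h1
  obtain ⟨m, hm⟩ : ∃ m : ℝ, m = ∑ j ∈ Finset.range 4, (1 / c j true + 1 / c j false) := ⟨_, rfl⟩
  have hnn : ∀ j s, 0 < 1 / c j s := fun j s => by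
    have := hc j s
    positivity
  have hle : ∀ (j : ℕ) (s : Bool), j < 4 → 1 / c j s ≤ m := by
    intro j s hj
    have h2 := Finset.single_le_sum (f := fun j => 1 / c j true + 1 / c j false)
      (fun j _ => (add_pos (hnn j true) (hnn j false)).le) (Finset.mem_range.2 hj)
    rw [← hm] at h2
    refine le_trans ?_ h2
    have p1 := hnn j true
    have p2 := hnn j false
    cases s
    · linarith
    · linarith
  have hm0 : 0 < m := lt_of_lt_of_le (hnn 0 true) (hle 0 true (by norm_num))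
  refine ⟨1 / m, by positivity, fun j s hj => Nd_mono (hN j s) ?_⟩
  have h3 := hle j s hj
  have h4 := hc j s
  rw [div_le_iff₀ h4] at h3
  rw [div_le_iff₀ hm0]
  linarith

end

/-! ## the set -/

section
variable {α β : ℂ}

/-- the ellipse `{p | |α p.1 + β p.2| ≤ R}` -/
theorem mem_ell (h : α.re * β.im - α.im * β.re ≠ 0) {R : ℝ} (hR : 0 ≤ R) (p : ℝ × ℝ) :
    (∀ t : ℝ, p.1 * cos t + p.2 * sin t ≤ R * ellH (((α.re * β.im - α.im * β.re)⁻¹ : ℝ) * β) (-(((α.re * β.im - α.im * β.re)⁻¹ : ℝ) * α)) t) ↔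
      ‖tA α β p‖ ≤ R := by
  obtain ⟨δ, hδ⟩ : ∃ δ : ℝ, δ = α.re * β.im - α.im * β.re := ⟨_, rfl⟩
  rw [← hδ] at h ⊢
  obtain ⟨w, hw⟩ : ∃ w : ℂ, w = tA α β p := ⟨_, rfl⟩
  have w1 : w.re = p.1 * α.re + p.2 * β.re := by rw [hw, tA_re]
  have w2 : w.im = p.1 * α.im + p.2 * β.im := by rw [hw, tA_im]
  have hE : ∀ t, tA (((δ⁻¹ : ℝ) : ℂ) * β) (-(((δ⁻¹ : ℝ) : ℂ) * α)) (cos t, sin t) = ((δ⁻¹ : ℝ) : ℂ) * tA β (-α) (cos t, sin t) := by
    intro t
    unfold tA
    ring
  have hpe : ∀ x y : ℝ, p.1 * x + p.2 * y = δ⁻¹ * (w.re * (x * β.im - y * α.im) - w.im * (x * β.re - y * α.re)) := by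
    intro x y
    rw [w1, w2]
    field_simp
    rw [hδ]
    ring
  have hH : ∀ t, ellH (((δ⁻¹ : ℝ) : ℂ) * β) (-(((δ⁻¹ : ℝ) : ℂ) * α)) t = |δ⁻¹| * ‖tA β (-α) (cos t, sin t)‖ := by
    intro t
    unfold ellH
    rw [hE, norm_mul, Complex.norm_real, Real.norm_eq_abs]
  rw [← hw]
  constructor
  · intro hall
    rcases eq_or_ne w 0 with h0 | h0
    · rw [h0, norm_zero]
      exact hR
    have hwn : 0 < ‖w‖ := norm_pos_iff.2 h0
    -- the coordinates of `i w` (or `- i w`)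
    obtain ⟨z, hz⟩ : ∃ z : ℂ, z = ((δ⁻¹ : ℝ) : ℂ) * (Complex.I * w) := ⟨_, rfl⟩
    have z1 : z.re = δ⁻¹ * (-w.im) := by
      rw [hz, Complex.re_ofReal_mul]
      simp
    have z2 : z.im = δ⁻¹ * w.re := by
      rw [hz, Complex.im_ofReal_mul]
      simp
    obtain ⟨x, hx⟩ : ∃ x : ℝ, x = δ⁻¹ * (α.re * z.im - α.im * z.re) := ⟨_, rfl⟩
    obtain ⟨y, hy⟩ : ∃ y : ℝ, y = δ⁻¹ * (β.re * z.im - β.im * z.re) := ⟨_, rfl⟩
    have q1 : x * β.re - y * α.re = z.re := by
      rw [hx, hy]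
      field_simp
      rw [hδ]
      ring
    have q2 : x * β.im - y * α.im = z.im := by
      rw [hx, hy]
      field_simp
      rw [hδ]
      ring
    obtain ⟨ζ, hζ⟩ : ∃ ζ : ℂ, ζ = ⟨x, y⟩ := ⟨_, rfl⟩
    have hζ0 : ζ ≠ 0 := by
      intro e
      have ex : x = 0 := by
        have := congrArg Complex.re (hζ.symm.trans e)
        simpa using this
      have ey : y = 0 := by
        have := congrArg Complex.im (hζ.symm.trans e)
        simpa using this
      rw [ex, ey] at q1 q2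
      have hz0 : z = 0 := Complex.ext (by simpa using q1.symm) (by simpa using q2.symm)
      rw [hz] at hz0
      rcases mul_eq_zero.1 hz0 with h5 | h5
      · have : δ⁻¹ = 0 := by exact_mod_cast h5
        exact h (inv_eq_zero.1 this)
      · rcases mul_eq_zero.1 h5 with h6 | h6
        · exact Complex.I_ne_zero h6
        · exact h0 h6
    have hr : 0 < ‖ζ‖ := norm_pos_iff.2 hζ0
    obtain ⟨t, ht⟩ : ∃ t : ℝ, t = Complex.arg ζ := ⟨_, rfl⟩
    have tc : ‖ζ‖ * cos t = x := by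
      rw [ht, Complex.norm_mul_cos_arg, hζ]
    have ts : ‖ζ‖ * sin t = y := by
      rw [ht, Complex.norm_mul_sin_arg, hζ]
    have h3 := hall t
    rw [hpe, hH] at h3
    have h4 : ‖ζ‖ * (δ⁻¹ * (w.re * (cos t * β.im - sin t * α.im) - w.im * (cos t * β.re - sin t * α.re))) = δ⁻¹ ^ 2 * ‖w‖ ^ 2 := by
      have e1 : ‖ζ‖ * (δ⁻¹ * (w.re * (cos t * β.im - sin t * α.im) - w.im * (cos t * β.re - sin t * α.re))) =
          δ⁻¹ * (w.re * ((‖ζ‖ * cos t) * β.im - (‖ζ‖ * sin t) * α.im) - w.im * ((‖ζ‖ * cos t) * β.re - (‖ζ‖ * sin t) * α.re)) := by ring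
      rw [e1, tc, ts, q1, q2, z1, z2, ← Complex.normSq_eq_norm_sq, Complex.normSq_apply]
      ring
    have h5 : ‖ζ‖ * ‖tA β (-α) (cos t, sin t)‖ = |δ⁻¹| * ‖w‖ := by
      have e1 : ((‖ζ‖ : ℝ) : ℂ) * tA β (-α) (cos t, sin t) = z := by
        apply Complex.ext
        · rw [Complex.re_ofReal_mul, tA_re, ← q1, ← tc, ← ts]
          simp only [Complex.neg_re]
          ring
        · rw [Complex.im_ofReal_mul, tA_im, ← q2, ← tc, ← ts]
          simp only [Complex.neg_im]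
          ring
      have e2 := congrArg norm e1
      rw [norm_mul, Complex.norm_real, norm_norm] at e2
      rw [e2, hz, norm_mul, norm_mul, Complex.norm_I, one_mul, Complex.norm_real, Real.norm_eq_abs]
    have h6 := mul_le_mul_of_nonneg_left h3 hr.le
    rw [h4] at h6
    have h7 : ‖ζ‖ * (R * (|δ⁻¹| * ‖tA β (-α) (cos t, sin t)‖)) = R * |δ⁻¹| * (|δ⁻¹| * ‖w‖) := by
      rw [← h5]
      ring
    rw [h7] at h6
    have h8 : δ⁻¹ ^ 2 = |δ⁻¹| ^ 2 := (sq_abs _).symm
    rw [h8] at h6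
    have h9 : 0 < |δ⁻¹| := abs_pos.2 (inv_ne_zero h)
    have h10 : 0 < |δ⁻¹| ^ 2 * ‖w‖ := by positivity
    have h11 : (|δ⁻¹| ^ 2 * ‖w‖) * ‖w‖ ≤ (|δ⁻¹| ^ 2 * ‖w‖) * R := by nlinarith
    exact le_of_mul_le_mul_left h11 h10
  · intro hle t
    rw [hpe, hH]
    have h1 := cross_le w (tA β (-α) (cos t, sin t))
    rw [tA_re, tA_im] at h1
    simp only [Complex.neg_re, Complex.neg_im] at h1
    have e1 : w.re * (cos t * β.im + sin t * -α.im) - w.im * (cos t * β.re + sin t * -α.re) =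
        w.re * (cos t * β.im - sin t * α.im) - w.im * (cos t * β.re - sin t * α.re) := by ring
    rw [e1] at h1
    calc δ⁻¹ * (w.re * (cos t * β.im - sin t * α.im) - w.im * (cos t * β.re - sin t * α.re)) ≤
          |δ⁻¹ * (w.re * (cos t * β.im - sin t * α.im) - w.im * (cos t * β.re - sin t * α.re))| := le_abs_self _
      _ = |δ⁻¹| * |w.re * (cos t * β.im - sin t * α.im) - w.im * (cos t * β.re - sin t * α.re)| := abs_mul _ _
      _ ≤ |δ⁻¹| * (‖w‖ * ‖tA β (-α) (cos t, sin t)‖) := mul_le_mul_of_nonneg_left h1 (abs_nonneg _)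
      _ ≤ |δ⁻¹| * (R * ‖tA β (-α) (cos t, sin t)‖) := by gcongr
      _ = _ := by ring

/-- the area of `{p | |α p.1 + β p.2| ≤ 1}` -/
theorem vol_ell (h : α.re * β.im - α.im * β.re ≠ 0) :
    (volume {p : ℝ × ℝ | ‖tA α β p‖ ≤ 1}).toReal = π / |α.re * β.im - α.im * β.re| := by
  set L : (ℝ × ℝ) →ₗ[ℝ] ℝ × ℝ := Matrix.toLin (Module.Basis.finTwoProd ℝ) (Module.Basis.finTwoProd ℝ) !![α.re, β.re; α.im, β.im] with hL
  have hLa : ∀ q : ℝ × ℝ, L q = (α.re * q.1 + β.re * q.2, α.im * q.1 + β.im * q.2) := by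
    intro q
    rw [hL]
    exact Matrix.toLin_finTwoProd_apply _ _ _ _ q
  have hdet : LinearMap.det L = α.re * β.im - β.re * α.im := by
    rw [hL, LinearMap.det_toLin, Matrix.det_fin_two_of]
  have hdet' : LinearMap.det L = α.re * β.im - α.im * β.re := by
    rw [hdet]
    ring
  have hset : {p : ℝ × ℝ | ‖tA α β p‖ ≤ 1} = L ⁻¹' {p : ℝ × ℝ | p.1 ^ 2 + p.2 ^ 2 ≤ 1} := by
    ext p
    simp only [mem_ofPred_eq, mem_preimage]
    rw [hLa]
    have e : ‖tA α β p‖ ^ 2 = (α.re * p.1 + β.re * p.2) ^ 2 + (α.im * p.1 + β.im * p.2) ^ 2 := by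
      rw [← Complex.normSq_eq_norm_sq, Complex.normSq_apply, tA_re, tA_im]
      ring
    rw [← e]
    constructor
    · intro h1
      exact pow_le_one₀ (norm_nonneg _) h1
    · intro h1
      nlinarith [norm_nonneg (tA α β p)]
  have hm : MeasurableSet {p : ℝ × ℝ | p.1 ^ 2 + p.2 ^ 2 ≤ 1} :=
    measurableSet_le (by fun_prop) measurable_const
  have h2 : Complex.measurableEquivRealProd ⁻¹' {p : ℝ × ℝ | p.1 ^ 2 + p.2 ^ 2 ≤ 1} =
      Metric.closedBall (0 : ℂ) 1 := by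
    ext z
    rw [mem_closedBall_zero_iff]
    change z.re ^ 2 + z.im ^ 2 ≤ 1 ↔ _
    have h3 : z.re ^ 2 + z.im ^ 2 = ‖z‖ ^ 2 := by
      rw [Complex.sq_norm, Complex.normSq_apply]
      ring
    rw [h3]
    constructor
    · intro h
      nlinarith [norm_nonneg z]
    · intro h
      exact pow_le_one₀ (norm_nonneg _) h
  rw [hset, Measure.addHaar_preimage_linearMap volume (by rw [hdet']; exact h), hdet',
    ← Complex.volume_preserving_equiv_real_prod.measure_preimage hm.nullMeasurableSet, h2,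
    Complex.volume_closedBall]
  rw [ENNReal.toReal_mul, ENNReal.toReal_ofReal (abs_nonneg _), abs_inv]
  simp
  field_simp

end

end Pool.Agent.Helper36.EL
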