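import Pool.Agent.Helper36.EL.Open
import Pool.Agent.Helper36.EL.Geo
import Pool.Agent.Helper36.EL.MainN
import Pool.Agent.Helper22.EL.Oct61
import Pool.Agent.Helper53.EL.Td2N
import Pool.Agent.Helper92.DT.W4
import Pool.Agent.Helper76.MM.E1

/-!
# Project EL (MP_fb29e9_nt): exponent 61/98 for all ellipses and all centres

`near_main`: every oval whose exact octant phases satisfy `NdL`. `ell_main`: ellipses. `form_main`: positive definite binary quadratic forms.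
-/

set_option autoImplicit false

open MeasureTheory Real Set

namespace Pool.Agent.Helper36.EL

open Pool.Agent.Helper22.AE (IsSupp area dom)
open Pool.Agent.Helper22.AC (cntc)
open Pool.Agent.Helper22.OV (gam oph)

theorem octN61 : OctAllN (61 / 98) :=
  octAllN61_of (fun _ _ _ _ hB hω hc => td2N hB hω hc) (Pool.Agent.Helper92.DT.wp4 fun _ he B => Pool.Agent.Helper76.MM.M12 he B)

/-- ovals whose exact octant phases satisfy `NdL` -/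
theorem near_main {H : ℝ → ℝ} (hH : IsSupp H) (h7 : ContDiff ℝ 7 H) {c₀ : ℝ} (hc₀ : 0 < c₀)
    (hN : ∀ (j : ℕ) (s : Bool), j < 4 → NdL c₀ (oph (gam H 0 0) j s)) {ε : ℝ} (hε : 0 < ε) :
    ∃ C : ℝ, ∀ R : ℝ, 1 ≤ R → ∀ c : ℝ × ℝ, |cntc H c R - area H * R ^ 2| ≤ C * R ^ (61 / 98 + ε) := by
  obtain ⟨α₁, hα₁, h⟩ := Nd_open h7 hc₀ hN
  exact main_genN (by norm_num) (by norm_num) octN61 hH h7 (c₀ := c₀ / 2) (by positivity) hα₁ h hε

/-- ellipses -/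
theorem ell_main {P Q : ℂ} (h : P.re * Q.im - P.im * Q.re ≠ 0) {ε : ℝ} (hε : 0 < ε) :
    ∃ C : ℝ, ∀ R : ℝ, 1 ≤ R → ∀ c : ℝ × ℝ, |cntc (ellH P Q) c R - area (ellH P Q) * R ^ 2| ≤ C * R ^ (61 / 98 + ε) := by
  obtain ⟨c₀, hc₀, hN⟩ := Nd_ell_all h
  exact near_main (ellH_supp h) (by exact_mod_cast ellH_contDiff h 7) hc₀ hN hε

/-- the number of integer points in an ellipse -/
noncomputable def cntQ (a b c : ℝ) (v : ℝ × ℝ) (R : ℝ) : ℕ :=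
  Nat.card {k : ℤ × ℤ // a * ((k.1 : ℝ) - v.1) ^ 2 + b * ((k.1 : ℝ) - v.1) * ((k.2 : ℝ) - v.2) + c * ((k.2 : ℝ) - v.2) ^ 2 ≤ R ^ 2}

/-- **positive definite binary quadratic forms** -/
theorem form_main {a b c : ℝ} (ha : 0 < a) (hd : b ^ 2 < 4 * a * c) {ε : ℝ} (hε : 0 < ε) : ∃ C : ℝ, ∀ R : ℝ, 1 ≤ R → ∀ v : ℝ × ℝ,
    |(cntQ a b c v R : ℝ) - 2 * π / √(4 * a * c - b ^ 2) * R ^ 2| ≤ C * R ^ (61 / 98 + ε) := by
  have hsa : 0 < √a := sqrt_pos.2 ha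
  have hsa2 : √a ^ 2 = a := sq_sqrt ha.le
  have hD : 0 < 4 * a * c - b ^ 2 := by linarith
  have hsD : 0 < √(4 * a * c - b ^ 2) := sqrt_pos.2 hD
  have hsD2 : √(4 * a * c - b ^ 2) ^ 2 = 4 * a * c - b ^ 2 := sq_sqrt hD.le
  obtain ⟨α, hα⟩ : ∃ α : ℂ, α = ⟨√a, 0⟩ := ⟨_, rfl⟩
  obtain ⟨β, hβ⟩ : ∃ β : ℂ, β = ⟨b / (2 * √a), √(4 * a * c - b ^ 2) / (2 * √a)⟩ := ⟨_, rfl⟩
  have hdet : α.re * β.im - α.im * β.re = √(4 * a * c - b ^ 2) / 2 := by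
    rw [hα, hβ]
    simp only
    field_simp
    ring
  have hdp : 0 < α.re * β.im - α.im * β.re := by
    rw [hdet]
    positivity
  have hQ : ∀ p : ℝ × ℝ, ‖tA α β p‖ ^ 2 = a * p.1 ^ 2 + b * p.1 * p.2 + c * p.2 ^ 2 := by
    intro p
    rw [← Complex.normSq_eq_norm_sq, Complex.normSq_apply, tA_re, tA_im, hα, hβ]
    simp only
    obtain ⟨D, hDD⟩ : ∃ D, D = √(4 * a * c - b ^ 2) := ⟨_, rfl⟩
    rw [← hDD] at hsD2 ⊢
    obtain ⟨r, hr⟩ : ∃ r, r = √a := ⟨_, rfl⟩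
    rw [← hr] at hsa hsa2 ⊢
    have hr0 := hsa.ne'
    have e1 : (p.1 * r + p.2 * (b / (2 * r))) * (p.1 * r + p.2 * (b / (2 * r))) + (p.1 * 0 + p.2 * (D / (2 * r))) * (p.1 * 0 + p.2 * (D / (2 * r))) =
        p.1 ^ 2 * r ^ 2 + b * p.1 * p.2 + p.2 ^ 2 * ((b ^ 2 + D ^ 2) / (4 * r ^ 2)) := by
      field_simp
      ring
    have e2 : (b ^ 2 + D ^ 2) / (4 * r ^ 2) = c := by
      rw [hsD2, hsa2]
      field_simp
      ring
    rw [e1, e2, hsa2]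
    ring
  have hiff : ∀ (p : ℝ × ℝ) {R : ℝ}, 0 ≤ R → (‖tA α β p‖ ≤ R ↔ a * p.1 ^ 2 + b * p.1 * p.2 + c * p.2 ^ 2 ≤ R ^ 2) := by
    intro p R hR
    rw [← hQ]
    exact (sq_le_sq₀ (norm_nonneg _) hR).symm
  obtain ⟨P, hP⟩ : ∃ P : ℂ, P = (((α.re * β.im - α.im * β.re)⁻¹ : ℝ) : ℂ) * β := ⟨_, rfl⟩
  obtain ⟨Q, hQQ⟩ : ∃ Q : ℂ, Q = -((((α.re * β.im - α.im * β.re)⁻¹ : ℝ) : ℂ) * α) := ⟨_, rfl⟩
  have hPQ : P.re * Q.im - P.im * Q.re ≠ 0 := by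
    have e : P.re * Q.im - P.im * Q.re = (α.re * β.im - α.im * β.re)⁻¹ := by
      rw [hP, hQQ]
      simp only [Complex.neg_re, Complex.neg_im, Complex.re_ofReal_mul, Complex.im_ofReal_mul]
      field_simp
      ring
    rw [e]
    exact inv_ne_zero hdp.ne'
  obtain ⟨C, hC⟩ := ell_main hPQ hε
  refine ⟨C, fun R hR v => ?_⟩
  have h := hC R hR v
  have hmem := fun (p : ℝ × ℝ) {R : ℝ} (hR : 0 ≤ R) => (mem_ell hdp.ne' hR p).trans (hiff p hR)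
  rw [← hP, ← hQQ] at hmem
  have h1 : cntc (ellH P Q) v R = (cntQ a b c v R : ℝ) := by
    unfold cntc cntQ
    congr 1
    refine Nat.card_congr (Equiv.subtypeEquivRight fun k => ?_)
    exact hmem ((k.1 : ℝ) - v.1, (k.2 : ℝ) - v.2) (by linarith)
  have h2 : area (ellH P Q) = 2 * π / √(4 * a * c - b ^ 2) := by
    unfold area
    have e : dom (ellH P Q) = {p : ℝ × ℝ | ‖tA α β p‖ ≤ 1} := by
      ext p
      have h3 := mem_ell hdp.ne' (zero_le_one) p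
      rw [← hP, ← hQQ] at h3
      simp only [one_mul] at h3
      exact h3
    rw [e, vol_ell hdp.ne', abs_of_pos hdp, hdet]
    field_simp
  rw [h1, h2] at h
  exact h

end Pool.Agent.Helper36.EL
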