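import Pool.Agent.Helper92.TD.Tower

/-!
# Project EL (MP_fb29e9_nt): the lower bound for the derivatives of the absolute value, general transversality

`low5s`: as Helper92.TD.low5, with the factor `6.5625 (√(16 + 9 s) - 4)` if `(Im v Re q - Re v Im q)² ≥ s (‖v‖ ‖q‖)²`.
-/

set_option autoImplicit false

namespace Pool.Agent.Helper36.EL

open scoped ComplexConjugate
open Pool.Agent.Helper92.TD (T Dv pr pr_cons pr_nil bc up1)

private lemma norm_half36 (a : ℕ) : ‖(1 / 2 - a : ℂ)‖ = |1 / 2 - (a : ℝ)| := by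
  have : (1 / 2 - a : ℂ) = ((1 / 2 - (a : ℝ) : ℝ) : ℂ) := by push_cast; ring
  rw [this, Complex.norm_real, Real.norm_eq_abs]

/-- one step of the lower bound, `b = 0` -/
private lemma step_low36 {a : ℕ} {u : ℂ} {us : List ℂ} {q : ℂ} {A B : ℝ} (ha : 1 ≤ a)
    (h1 : A ≤ ‖Dv (a + 1) 0 us q‖) (h2 : ‖Dv a 1 us q‖ ≤ B) :
    ‖u‖ * ((a - 1 / 2) * A - 1 / 2 * B) ≤ ‖Dv a 0 (u :: us) q‖ := by
  simp only [Dv]
  have a0 : (1 : ℝ) ≤ a := by exact_mod_cast ha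
  have e : ∀ x y : ℂ, ‖x‖ - ‖y‖ ≤ ‖x + y‖ := by
    intro x y
    have := norm_sub_norm_le x (-y)
    rwa [norm_neg, sub_neg_eq_add] at this
  refine le_trans ?_ (e _ _)
  rw [norm_mul, norm_mul, norm_mul, norm_mul, RCLike.norm_conj, norm_half36, norm_half36, abs_of_nonpos (by linarith),
    Nat.cast_zero, sub_zero, abs_of_nonneg (by norm_num : (0 : ℝ) ≤ 1 / 2), zero_add]
  have h3 : (a - 1 / 2) * ‖u‖ * A ≤ -(1 / 2 - (a : ℝ)) * ‖u‖ * ‖Dv (a + 1) 0 us q‖ := by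
    have : -(1 / 2 - (a : ℝ)) = a - 1 / 2 := by ring
    rw [this]
    have h4 : 0 ≤ ((a : ℝ) - 1 / 2) * ‖u‖ := mul_nonneg (by linarith) (norm_nonneg _)
    exact mul_le_mul_of_nonneg_left h1 h4
  have h5 : 1 / 2 * ‖u‖ * ‖Dv a 1 us q‖ ≤ 1 / 2 * ‖u‖ * B := mul_le_mul_of_nonneg_left h2 (by positivity)
  linarith

/-- the innermost derivative: `v` transversal to `q` -/
private lemma base_low36 {v q : ℂ} (hq : q ≠ 0) {s : ℝ} (hs0 : 0 ≤ s) (hs : s * (‖v‖ * ‖q‖) ^ 2 ≤ (v.im * q.re - v.re * q.im) ^ 2) :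
    √(16 + 9 * s) * (‖v‖ * (‖q‖ * (‖q‖⁻¹) ^ 6)) ≤ ‖Dv 5 0 [v] q‖ := by
  have hc : conj q ≠ 0 := by simpa using hq
  have hq0 : 0 < ‖q‖ := norm_pos_iff.2 hq
  have e1 : Dv 5 0 [v] q = ((‖q‖ : ℂ) * (q⁻¹) ^ 6 * (conj q)⁻¹) * (1 / 2 * (conj v * q - 9 * v * conj q)) := by
    have r1 : q⁻¹ * q = 1 := inv_mul_cancel₀ hq
    have r2 : (conj q)⁻¹ * conj q = 1 := inv_mul_cancel₀ hc
    simp only [Dv, T]
    push_cast
    linear_combination (9 / 2 * v * ‖q‖ * (q⁻¹) ^ 6) * r2 - (1 / 2 * conj v * ‖q‖ * (q⁻¹) ^ 5 * (conj q)⁻¹) * r1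
  rw [e1, norm_mul, norm_mul, norm_mul, norm_pow, norm_inv, norm_inv, RCLike.norm_conj, Complex.norm_real, norm_norm]
  have h1 : √(16 + 9 * s) * (‖v‖ * ‖q‖) ≤ ‖(1 / 2 * (conj v * q - 9 * v * conj q) : ℂ)‖ := by
    have h2 : ‖(1 / 2 * (conj v * q - 9 * v * conj q) : ℂ)‖ ^ 2 = 16 * (‖v‖ * ‖q‖) ^ 2 + 9 * (v.im * q.re - v.re * q.im) ^ 2 := by
      have a1 : ‖v‖ ^ 2 = v.re * v.re + v.im * v.im := by
        rw [← Complex.normSq_eq_norm_sq, Complex.normSq_apply]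
      have a2 : ‖q‖ ^ 2 = q.re * q.re + q.im * q.im := by
        rw [← Complex.normSq_eq_norm_sq, Complex.normSq_apply]
      rw [mul_pow, a1, a2, ← Complex.normSq_eq_norm_sq, Complex.normSq_apply]
      have b1 : ((1 / 2 * (conj v * q - 9 * v * conj q) : ℂ)).re = 1 / 2 * (v.re * q.re + v.im * q.im - 9 * (v.re * q.re + v.im * q.im)) := by
        simp
        try ring
      have b2 : ((1 / 2 * (conj v * q - 9 * v * conj q) : ℂ)).im = 1 / 2 * (v.re * q.im - v.im * q.re - 9 * (v.im * q.re - v.re * q.im)) := by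
        simp
        try ring
      rw [b1, b2]
      ring
    have h3 : (√(16 + 9 * s) * (‖v‖ * ‖q‖)) ^ 2 ≤ ‖(1 / 2 * (conj v * q - 9 * v * conj q) : ℂ)‖ ^ 2 := by
      rw [h2, mul_pow, Real.sq_sqrt (by positivity)]
      linarith
    exact (pow_le_pow_iff_left₀ (by positivity) (norm_nonneg _) two_ne_zero).1 h3
  calc √(16 + 9 * s) * (‖v‖ * (‖q‖ * (‖q‖⁻¹) ^ 6)) = (‖q‖ * (‖q‖⁻¹) ^ 6 * ‖q‖⁻¹) * (√(16 + 9 * s) * (‖v‖ * ‖q‖)) := by
        field_simp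
    _ ≤ _ := mul_le_mul_of_nonneg_left h1 (by positivity)

/-- **the lower bound**, general transversality -/
theorem low5s {w₁ w₂ w₃ w₄ v q : ℂ} (hq0 : q ≠ 0) {s : ℝ} (hs0 : 0 ≤ s)
    (hs : s * (‖v‖ * ‖q‖) ^ 2 ≤ (v.im * q.re - v.re * q.im) ^ 2) :
    105 / 16 * (√(16 + 9 * s) - 4) * (pr [w₁, w₂, w₃, w₄, v] * (‖q‖ * (‖q‖⁻¹) ^ 6)) ≤ ‖Dv 1 0 [w₁, w₂, w₃, w₄, v] q‖ := by
  have hqn : 0 < ‖q‖ := norm_pos_iff.2 hq0
  have h0 := base_low36 (v := v) hq0 hs0 hs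
  have u4 := up1 [v] (a := 4) (b := 1) (q := q) (by norm_num) le_rfl
  have u3 := up1 [w₄, v] (a := 3) (b := 1) (q := q) (by norm_num) le_rfl
  have u2 := up1 [w₃, w₄, v] (a := 2) (b := 1) (q := q) (by norm_num) le_rfl
  have u1 := up1 [w₂, w₃, w₄, v] (a := 1) (b := 1) (q := q) (by norm_num) le_rfl
  simp only [bc, List.length_cons, List.length_nil, pr_cons, pr_nil] at u1 u2 u3 u4
  norm_num at u1 u2 u3 u4
  obtain ⟨L, hL⟩ : ∃ L : ℝ, L = √(16 + 9 * s) := ⟨_, rfl⟩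
  rw [← hL] at h0 ⊢
  have l4 := step_low36 (u := w₄) (by norm_num : 1 ≤ 4) h0 u4
  have l3 := step_low36 (u := w₃) (by norm_num : 1 ≤ 3) l4 u3
  have l2 := step_low36 (u := w₂) (by norm_num : 1 ≤ 2) l3 u2
  have l1 := step_low36 (u := w₁) (by norm_num : 1 ≤ 1) l2 u1
  refine le_trans (le_of_eq ?_) l1
  simp only [pr_cons, pr_nil]
  push_cast
  ring

end Pool.Agent.Helper36.EL
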