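import Pool.Agent.Helper36.EL.Defs

/-!
# Project EL (MP_fb29e9_nt): `NdL` is an open condition

`Nd_near`: phases whose derivatives of orders two to six are close. `Nd_open`: the phases of an oval with shift `α` and parallel shift `η`, small `α`, `η`.
-/

set_option autoImplicit false

namespace Pool.Agent.Helper36.EL

open Real Set
open Pool.Agent.Helper53.OW (Tw Tw6 Ps Ps6 Ec Ec_bd pn pn_cons pn_nil pn_nonneg Pt)
open Pool.Agent.Helper22.OV (gam oph sg sg_abs)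
open Pool.Agent.Helper92.OV6 (FF FF_contDiff pd pd_iter oph_eq)

theorem Ps_near {δ : ℝ} {φ φ₀ : ℝ → ℝ} {ws : List (ℝ × ℝ)} (hl : ws.length = 6) {s : ℝ} (hs : |s| ≤ 2)
    (h : ∀ n, 2 ≤ n → n ≤ 6 → |iteratedDeriv n φ s - iteratedDeriv n φ₀ s| ≤ δ) :
    |Ps φ ws s - Ps φ₀ ws s| ≤ 266240 * δ * pn ws := by
  have hδ : 0 ≤ δ := (abs_nonneg _).trans (h 2 le_rfl (by norm_num))
  have hp := pn_nonneg ws
  rw [Ps6 φ hl, Ps6 φ₀ hl]
  have hE := Ec_bd hs ws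
  rw [hl] at hE
  have key : ∀ (k : ℝ) (n : ℕ), 0 ≤ k → 2 ≤ n → n ≤ 6 →
      |k * iteratedDeriv n φ s * Ec ws n s - k * iteratedDeriv n φ₀ s * Ec ws n s| ≤ k * (4096 * δ * pn ws) := by
    intro k n hk h1 h2
    have e : k * iteratedDeriv n φ s * Ec ws n s - k * iteratedDeriv n φ₀ s * Ec ws n s =
        k * ((iteratedDeriv n φ s - iteratedDeriv n φ₀ s) * Ec ws n s) := by ring
    rw [e, abs_mul, abs_mul, abs_of_nonneg hk]
    have h3 := mul_le_mul (h n h1 h2) (hE n) (abs_nonneg _) hδ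
    calc k * (|iteratedDeriv n φ s - iteratedDeriv n φ₀ s| * |Ec ws n s|) ≤ k * (δ * (4 ^ 6 * pn ws)) :=
          mul_le_mul_of_nonneg_left h3 hk
      _ = _ := by ring
  have k2 := abs_le.1 (key 24 2 (by norm_num) le_rfl (by norm_num))
  have k3 := abs_le.1 (key 24 3 (by norm_num) (by norm_num) (by norm_num))
  have k4 := abs_le.1 (key 12 4 (by norm_num) (by norm_num) (by norm_num))
  have k5 := abs_le.1 (key 4 5 (by norm_num) (by norm_num) (by norm_num))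
  have k6 := abs_le.1 (key 1 6 (by norm_num) (by norm_num) (by norm_num))
  rw [one_mul, one_mul, one_mul] at k6
  rw [abs_le]
  constructor <;> linarith [k2.1, k2.2, k3.1, k3.2, k4.1, k4.2, k5.1, k5.2, k6.1, k6.2]

theorem Tw_near {δ : ℝ} {φ φ₀ : ℝ → ℝ} {ws : List (ℝ × ℝ)} (hl : ws.length = 6) {K : ℝ} {q : ℝ × ℝ} (hq : Pt K q)
    (h : ∀ n, 2 ≤ n → n ≤ 6 → ∀ x, |x| ≤ 2 → |iteratedDeriv n φ x - iteratedDeriv n φ₀ x| ≤ δ) :
    |Tw φ ws q - Tw φ₀ ws q| ≤ 266240 * δ * (pn ws / K ^ 5) := by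
  have hK := hq.kp
  have hq0 : 0 < q.1 := lt_of_lt_of_le hK hq.x1
  have hsl := hq.slope
  have hs : |q.2 / q.1| ≤ 2 := abs_le.2 ⟨by linarith [hsl.1], by linarith [hsl.2]⟩
  have hp := pn_nonneg ws
  have hδ : 0 ≤ δ := (abs_nonneg _).trans (h 2 le_rfl (by norm_num) 0 (by norm_num))
  rw [Tw6 φ hl hq0, Tw6 φ₀ hl hq0, ← mul_sub, abs_mul, abs_of_nonneg (by positivity)]
  have h1 : (q.1⁻¹) ^ 5 ≤ (K⁻¹) ^ 5 := pow_le_pow_left₀ (by positivity) ((inv_le_inv₀ hq0 hK).2 hq.x1) 5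
  calc (q.1⁻¹) ^ 5 * |Ps φ ws (q.2 / q.1) - Ps φ₀ ws (q.2 / q.1)| ≤ (K⁻¹) ^ 5 * (266240 * δ * pn ws) :=
        mul_le_mul h1 (Ps_near hl hs fun n h1 h2 => h n h1 h2 _ hs) (abs_nonneg _) (by positivity)
    _ = _ := by
      rw [inv_pow]
      field_simp

theorem Nd_near {c₀ δ : ℝ} {φ φ₀ : ℝ → ℝ} (hN : NdL c₀ φ₀) (h : ∀ n, 2 ≤ n → n ≤ 6 → ∀ x, |x| ≤ 2 → |iteratedDeriv n φ x - iteratedDeriv n φ₀ x| ≤ δ)
    (hδ : 266240 * δ ≤ c₀ / 2) : NdL (c₀ / 2) φ := by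
  intro K q V w₁ w₂ w₃ w₄ hq hV
  have hK := hq.kp
  have h0 := hN K q V w₁ w₂ w₃ w₄ hq hV
  obtain ⟨Y, hY⟩ : ∃ Y : ℝ, Y = ‖w₁‖ * ‖w₂‖ * ‖w₃‖ * ‖w₄‖ * ‖V‖ / K ^ 5 := ⟨_, rfl⟩
  have hY0 : 0 ≤ Y := by rw [hY]; positivity
  have hn : ∀ z : ℝ × ℝ, ‖z‖ = 1 → |Tw φ [z, w₁, w₂, w₃, w₄, V] q - Tw φ₀ [z, w₁, w₂, w₃, w₄, V] q| ≤ c₀ / 2 * Y := by
    intro z hz
    have h1 := Tw_near (φ := φ) (φ₀ := φ₀) (ws := [z, w₁, w₂, w₃, w₄, V]) rfl hq h
    have e : pn [z, w₁, w₂, w₃, w₄, V] / K ^ 5 = Y := by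
      rw [hY]
      simp only [pn_cons, pn_nil, hz]
      ring
    rw [e] at h1
    exact h1.trans (mul_le_mul_of_nonneg_right hδ hY0)
  have n1 : ‖((1 : ℝ), (0 : ℝ))‖ = 1 := by simp [Prod.norm_def]
  have n2 : ‖((0 : ℝ), (1 : ℝ))‖ = 1 := by simp [Prod.norm_def]
  have a1 := hn _ n1
  have a2 := hn _ n2
  rw [← hY] at h0 ⊢
  have hab : ∀ x t e : ℝ, |x - t| ≤ e → |t| ≤ |x| + e := by
    intro x t e h
    have h8 := abs_sub_abs_le_abs_sub t x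
    rw [abs_sub_comm t x] at h8
    linarith
  have b1 := hab _ _ _ a1
  have b2 := hab _ _ _ a2
  rcases le_max_iff.1 h0 with h7 | h7
  · refine le_trans ?_ (le_max_left _ _)
    linarith
  · refine le_trans ?_ (le_max_right _ _)
    linarith

theorem Nd_open {H : ℝ → ℝ} (h7 : ContDiff ℝ 7 H) {c₀ : ℝ} (hc₀ : 0 < c₀) (hN : ∀ (j : ℕ) (s : Bool), j < 4 → NdL c₀ (oph (gam H 0 0) j s)) :
    ∃ α₁ : ℝ, 0 < α₁ ∧ ∀ α η : ℝ, |α| ≤ α₁ → |η| ≤ α₁ → ∀ (j : ℕ) (s : Bool), j < 4 → NdL (c₀ / 2) (oph (gam H α η) j s) := by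
  have hF := FF_contDiff h7
  have hF' : ∀ n : ℕ, n ≤ 6 → ContDiff ℝ n (FF H) := fun n hn => hF.of_le (by exact_mod_cast hn)
  obtain ⟨ε, hε⟩ : ∃ ε : ℝ, ε = c₀ / 532480 := ⟨_, rfl⟩
  have hε0 : 0 < ε := by rw [hε]; positivity
  have hm : ∀ n : ℕ, ∃ δ : ℝ, 0 < δ ∧ (n ≤ 6 → ∀ (a b : ℝ × ℝ × ℝ × ℝ) (x : ℝ), ‖a‖ ≤ 10 → ‖b‖ ≤ 10 → |x| ≤ 10 → dist a b < δ →
      |(pd^[n] (FF H)) (a, x) - (pd^[n] (FF H)) (b, x)| ≤ ε) := by
    intro n
    by_cases hn : n ≤ 6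
    · have h1 := (isCompact_closedBall (0 : (ℝ × ℝ × ℝ × ℝ) × ℝ) 10).uniformContinuousOn_of_continuous
        (pd_iter n (FF H) (hF' n hn)).1.continuousOn
      obtain ⟨δ, hδ, h2⟩ := Metric.uniformContinuousOn_iff.1 h1 ε hε0
      refine ⟨δ, hδ, fun _ a b x ha hb hx hab => ?_⟩
      have h3 := h2 (a, x) (by
        rw [mem_closedBall_zero_iff, Prod.norm_def]
        exact max_le ha hx) (b, x) (by
        rw [mem_closedBall_zero_iff, Prod.norm_def]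
        exact max_le hb hx) (by
        rw [Prod.dist_eq, dist_self]
        exact max_lt hab hδ)
      rw [Real.dist_eq] at h3
      exact h3.le
    · exact ⟨1, one_pos, fun h => absurd h hn⟩
  choose δ hδ hd using hm
  obtain ⟨m, hm⟩ : ∃ m : ℝ, m = min (min (min (δ 2) (δ 3)) (min (δ 4) (δ 5))) (min (δ 6) 1) := ⟨_, rfl⟩
  have hm0 : 0 < m := by
    rw [hm]
    exact lt_min (lt_min (lt_min (hδ 2) (hδ 3)) (lt_min (hδ 4) (hδ 5))) (lt_min (hδ 6) one_pos)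
  have hmd : ∀ n, 2 ≤ n → n ≤ 6 → m ≤ δ n := by
    intro n h1 h2
    rw [hm]
    interval_cases n
    · exact (min_le_left _ _).trans ((min_le_left _ _).trans (min_le_left _ _))
    · exact (min_le_left _ _).trans ((min_le_left _ _).trans (min_le_right _ _))
    · exact (min_le_left _ _).trans ((min_le_right _ _).trans (min_le_left _ _))
    · exact (min_le_left _ _).trans ((min_le_right _ _).trans (min_le_right _ _))
    · exact (min_le_right _ _).trans (min_le_left _ _)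
  have hm1 : m ≤ 1 := by
    rw [hm]
    exact (min_le_right _ _).trans (min_le_right _ _)
  refine ⟨m / 2, by positivity, ?_⟩
  intro α η hα hη j s hj
  have hnorm : ∀ a b : ℝ, |a| ≤ 1 → |b| ≤ 1 → ‖((a, b, (j : ℝ) * (π / 2), sg s) : ℝ × ℝ × ℝ × ℝ)‖ ≤ 10 := by
    intro a b ha hb
    rw [Prod.norm_def, Prod.norm_def, Prod.norm_def]
    simp only [Real.norm_eq_abs]
    refine max_le (by linarith) (max_le (by linarith) (max_le ?_ ?_))
    · have hj' : (j : ℝ) ≤ 3 := by exact_mod_cast (by omega : j ≤ 3)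
      have hpi := Real.pi_lt_four
      have hpi0 := Real.pi_pos
      rw [abs_of_nonneg (by positivity)]
      have h0 : (0 : ℝ) ≤ j := Nat.cast_nonneg j
      nlinarith
    · rw [sg_abs]
      norm_num
  have hit : ∀ (a b : ℝ) (n : ℕ), n ≤ 6 → iteratedDeriv n (oph (gam H a b) j s) =
      fun x => (pd^[n] (FF H)) ((a, b, (j : ℝ) * (π / 2), sg s), x) := by
    intro a b n hn
    rw [oph_eq]
    exact (pd_iter n (FF H) (hF' n hn)).2 _
  refine Nd_near (δ := ε) (hN j s hj) (fun n h1 h2 x hx => ?_) (by rw [hε]; linarith)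
  rw [hit α η n h2, hit 0 0 n h2]
  refine hd n h2 _ _ x (hnorm _ _ (by linarith) (by linarith)) (hnorm _ _ (by norm_num) (by norm_num)) (by linarith) ?_
  rw [Prod.dist_eq, Prod.dist_eq, dist_self]
  simp only [Real.dist_eq, sub_zero]
  have := hmd n h1 h2
  refine max_lt (by linarith) (max_lt (by linarith) (by linarith))

end Pool.Agent.Helper36.EL
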